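import Pool.Agent.Run7.h371.TB.Iface

/-! Piece CurveFacts of project TB (MP_64ccd3_an). -/

set_option autoImplicit false

namespace Run7.h480.TB

open Complex MeasureTheory Filter Topology Set Metric
open Run7.h371.TB

theorem norm_u (t : ℝ) : ‖u t‖ = 1 := by
  unfold u
  exact Complex.norm_exp_ofReal_mul_I t

theorem hasDeriv_u (t : ℝ) : HasDerivAt u (u t * I) t := by
  unfold u
  have h1 : HasDerivAt (fun s : ℝ => (s : ℂ) * I) (1 * I) t :=
    (Complex.ofRealCLM.hasDerivAt (x := t)).mul_const I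
  have h2 := h1.cexp
  rw [one_mul] at h2
  exact h2

theorem lip_u : LipschitzWith 1 u := by
  apply lipschitzWith_of_nnnorm_deriv_le (fun t => (hasDeriv_u t).differentiableAt)
  intro t
  rw [(hasDeriv_u t).deriv]
  apply le_of_eq
  ext
  simp [norm_u]

theorem cont_u : Continuous u := lip_u.continuous

theorem per_u (t : ℝ) : u (t + 2 * Real.pi) = u t := by
  unfold u
  have : ((t + 2 * Real.pi : ℝ) : ℂ) * I = (t : ℂ) * I + 2 * Real.pi * I := by
    push_cast; ring
  rw [this, Complex.exp_add, Complex.exp_two_pi_mul_I, mul_one]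

theorem lip_d (E : Set ℂ) : LipschitzWith 1 (d E) := by
  have h := (lipschitz_infDist_pt E).comp lip_u
  rw [one_mul] at h
  exact h

theorem d_nonneg (E : Set ℂ) (t : ℝ) : 0 ≤ d E t := infDist_nonneg

theorem d_le_two (E : Set ℂ) (hne : E.Nonempty) (hc : ∀ ξ ∈ E, ‖ξ‖ = 1) (t : ℝ) : d E t ≤ 2 := by
  obtain ⟨α, hα⟩ := hne
  have h1 : d E t ≤ dist (u t) α := infDist_le_dist_of_mem hα
  rw [dist_eq_norm] at h1
  have h2 := norm_sub_le (u t) α
  rw [norm_u, hc α hα] at h2
  linarith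

theorem lip_rad (E : Set ℂ) (σ : ℝ) : LipschitzWith (Real.nnabs σ) (rad E σ) := by
  apply LipschitzWith.of_dist_le_mul
  intro s t
  have h1 := (lip_d E).dist_le_mul s t
  rw [NNReal.coe_one, one_mul, Real.dist_eq] at h1
  rw [Real.dist_eq]
  unfold rad
  have h2 : 1 + σ * d E s - (1 + σ * d E t) = σ * (d E s - d E t) := by ring
  rw [h2, abs_mul]
  have h3 : ((Real.nnabs σ : NNReal) : ℝ) = |σ| := rfl
  rw [h3]
  exact mul_le_mul_of_nonneg_left h1 (abs_nonneg _)

theorem cont_rad (E : Set ℂ) (σ : ℝ) : Continuous (rad E σ) := (lip_rad E σ).continuous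

theorem adm_rad (E : Set ℂ) (hne : E.Nonempty) (hc : ∀ ξ ∈ E, ‖ξ‖ = 1) (σ : ℝ) (hσ : |σ| ≤ 1 / 4) :
    Adm (rad E σ) := by
  refine ⟨⟨_, lip_rad E σ⟩, ?_, ?_⟩
  · intro t
    unfold rad d
    rw [per_u]
  · intro t
    unfold rad
    have h1 := d_nonneg E t
    have h2 := d_le_two E hne hc t
    have h3 : |σ * d E t| ≤ 1 / 4 * 2 := by
      rw [abs_mul, abs_of_nonneg h1]
      exact mul_le_mul hσ h2 h1 (by norm_num)
    have h4 := (abs_le.1 h3).1
    linarith

theorem norm_κ (E : Set ℂ) (hne : E.Nonempty) (hc : ∀ ξ ∈ E, ‖ξ‖ = 1) (σ : ℝ) (hσ : |σ| ≤ 1 / 4)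
    (t : ℝ) : ‖κ (rad E σ) t‖ ≤ 2 := by
  unfold κ
  have h1 := norm_deriv_le_of_lipschitz (lip_rad E σ) (x₀ := t)
  have h3 : ((Real.nnabs σ : NNReal) : ℝ) = |σ| := rfl
  rw [h3] at h1
  have h4 := (adm_rad E hne hc σ hσ).half t
  have h5 : ‖((deriv (rad E σ) t / rad E σ t : ℝ) : ℂ)‖ ≤ 1 := by
    rw [Complex.norm_real, norm_div]
    rw [div_le_one (by rw [Real.norm_eq_abs, abs_of_pos (by linarith)]; linarith)]
    rw [Real.norm_eq_abs (rad E σ t), abs_of_pos (by linarith)]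
    linarith
  have h6 := norm_add_le I ((deriv (rad E σ) t / rad E σ t : ℝ) : ℂ)
  rw [Complex.norm_I] at h6
  linarith

theorem meas_κ (E : Set ℂ) (σ : ℝ) : Measurable (κ (rad E σ)) := by
  unfold κ
  have h1 : Measurable (fun t => deriv (rad E σ) t / rad E σ t) :=
    (measurable_deriv _).div (cont_rad E σ).measurable
  exact measurable_const.add (Complex.measurable_ofReal.comp h1)

theorem cont_w (E : Set ℂ) (σ : ℝ) : Continuous (w (rad E σ)) := by
  unfold w
  exact (Complex.continuous_ofReal.comp (cont_rad E σ)).mul cont_u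

theorem norm_w (E : Set ℂ) (hne : E.Nonempty) (hc : ∀ ξ ∈ E, ‖ξ‖ = 1) (σ : ℝ) (hσ : |σ| ≤ 1 / 4)
    (t : ℝ) : ‖w (rad E σ) t‖ = rad E σ t := by
  have h4 := (adm_rad E hne hc σ hσ).half t
  unfold w
  rw [norm_mul, norm_u, mul_one, Complex.norm_real, Real.norm_eq_abs, abs_of_pos (by linarith)]

theorem d_zero (E : Set ℂ) (t : ℝ) (ht : u t ∈ E) : d E t = 0 := infDist_zero_of_mem ht

theorem w_AE (E : Set ℂ) (σ : ℝ) (t : ℝ) (ht : u t ∈ E) : w (rad E σ) t = u t := by
  unfold w rad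
  rw [d_zero E t ht]
  simp

theorem κ_AE (E : Set ℂ) (σ : ℝ) (t : ℝ) (ht : u t ∈ E) : κ (rad E σ) t = I := by
  have h1 : deriv (rad E σ) t = 0 := by
    have h2 : deriv (d E) t = 0 := by
      apply IsLocalMin.deriv_eq_zero
      apply Filter.Eventually.of_forall
      intro s
      rw [d_zero E t ht]
      exact d_nonneg E s
    unfold rad
    rw [deriv_const_add, deriv_const_mul_field, h2, mul_zero]
  unfold κ
  rw [h1]
  simp

theorem t_CurveFacts : CurveFacts := by
  intro E hEc hne hc σ hσ hσ4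
  have ha : |σ| ≤ 1 / 4 := by rwa [abs_of_pos hσ]
  have hb : |-σ| ≤ 1 / 4 := by rwa [abs_neg]
  have hpm : ∀ t, rad E (-σ) t = 1 - σ * d E t := by intro t; unfold rad; ring
  have hpp : ∀ t, rad E σ t = 1 + σ * d E t := by intro t; rfl
  have mE : MeasurableSet (u ⁻¹' E) := (hEc.preimage cont_u).measurableSet
  have eA : AE E = Ioc 0 (2 * Real.pi) ∩ (u ⁻¹' E) := rfl
  have eN : NE E = Ioc 0 (2 * Real.pi) ∩ (u ⁻¹' E)ᶜ := rfl
  refine ⟨adm_rad E hne hc _ hb, adm_rad E hne hc _ ha, ?_, ?_, ?_, ?_, ?_, ?_, ?_, meas_κ E _,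
    meas_κ E _, cont_w E _, cont_w E _, ?_, ?_⟩
  · intro t
    rw [hpm]
    have := mul_nonneg hσ.le (d_nonneg E t)
    linarith
  · rw [eA]; exact measurableSet_Ioc.inter mE
  · rw [eN]; exact measurableSet_Ioc.inter mE.compl
  · rw [Set.disjoint_left]
    intro t h1 h2
    exact h2.2 h1.2
  · rw [eA, eN, Set.inter_union_compl]
  · intro t ht
    exact ⟨w_AE E _ t ht.2, w_AE E _ t ht.2, κ_AE E _ t ht.2, κ_AE E _ t ht.2⟩
  · intro t
    exact ⟨norm_κ E hne hc _ hb t, norm_κ E hne hc _ ha t⟩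
  · intro t ht
    have h1 : 0 < d E t := (hEc.notMem_iff_infDist_pos hne).1 ht.2
    have h2 := mul_pos hσ h1
    refine ⟨h1, ?_, ?_⟩
    · rw [norm_w E hne hc _ hb, hpm]; linarith
    · rw [norm_w E hne hc _ ha, hpp]; linarith
  · intro t
    obtain ⟨α, hα, hαd⟩ := hEc.exists_infDist_eq_dist hne (u t)
    have hd : ‖u t - α‖ = d E t := by rw [← dist_eq_norm, ← hαd]; rfl
    have h0 := d_nonneg E t
    refine ⟨α, hα, ?_, ?_⟩
    · intro s hs hs1
      have hr := (adm_rad E hne hc _ hb).half t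
      have hr1 : rad E (-σ) t ≤ 1 := by
        rw [hpm]
        have := mul_nonneg hσ.le (d_nonneg E t)
        linarith
      have e1 : (s : ℂ) * w (rad E (-σ)) t - α = -(((1 - s * rad E (-σ) t : ℝ) : ℂ) * u t) +
          (u t - α) := by
        unfold w; push_cast; ring
      have h3 : s * rad E (-σ) t ≤ rad E (-σ) t := by
        have := mul_le_mul_of_nonneg_right hs1 (by linarith : 0 ≤ rad E (-σ) t)
        linarith
      have h4 : ‖(s : ℂ) * w (rad E (-σ)) t‖ = s * rad E (-σ) t := by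
        rw [norm_mul, norm_w E hne hc _ hb, Complex.norm_real, Real.norm_eq_abs, abs_of_pos hs]
      have h5 : ‖(s : ℂ) * w (rad E (-σ)) t - α‖ ≤ (1 - s * rad E (-σ) t) + d E t := by
        rw [e1]
        refine (norm_add_le _ _).trans ?_
        rw [norm_neg, norm_mul, norm_u, mul_one, Complex.norm_real, Real.norm_eq_abs,
          abs_of_nonneg (by linarith), hd]
      rw [h4]
      refine h5.trans ?_
      have h6 : d E t ≤ 1 / σ * (1 - s * rad E (-σ) t) := by
        rw [one_div, ← div_eq_inv_mul, le_div_iff₀ hσ]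
        rw [hpm] at h3
        rw [hpm]
        linarith
      linarith
    · have e1 : w (rad E σ) t - α = (((rad E σ t - 1 : ℝ) : ℂ) * u t) + (u t - α) := by
        unfold w; push_cast; ring
      have h7 := mul_nonneg hσ.le h0
      have h5 : ‖w (rad E σ) t - α‖ ≤ (rad E σ t - 1) + d E t := by
        rw [e1]
        refine (norm_add_le _ _).trans ?_
        rw [norm_mul, norm_u, mul_one, Complex.norm_real, Real.norm_eq_abs,
          abs_of_nonneg (by rw [hpp]; linarith), hd]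
      rw [norm_w E hne hc _ ha]
      refine h5.trans (le_of_eq ?_)
      rw [hpp]
      field_simp
      ring

end Run7.h480.TB
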