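import Pool.Agent.Run7.h371.TB.Iface

/-! Piece PhiBound of project TB (MP_64ccd3_an). -/

set_option autoImplicit false

namespace Run7.h480.TB

open Complex MeasureTheory Filter Topology Set Metric
open Run7.h371.TB

theorem t_PhiBound : PhiBound := by
  intro hR b E M hEc hEn hcirc hM h0 h1 Φ hΦ hin hout ζ hζ hζE z hz
  obtain ⟨α, hα, hαd⟩ := hEc.exists_infDist_eq_dist hEn ζ
  set D := infDist ζ E with hD
  have hDpos : 0 < D := (hEc.notMem_iff_infDist_pos hEn).1 hζE
  have hD2 : D ≤ 2 := by
    rw [hαd, dist_eq_norm]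
    have := norm_sub_le ζ α
    rw [hζ, hcirc α hα] at this
    linarith
  have hsub : closedBall ζ (D / 2) ⊆ Eᶜ := by
    intro x hx hxE
    have h2 : D ≤ dist ζ x := infDist_le_dist_of_mem hxE
    rw [mem_closedBall, dist_comm] at hx
    linarith
  have hdc : DiffContOnCl ℂ Φ (ball ζ (D / 2)) := by
    apply DifferentiableOn.diffContOnCl
    exact hΦ.mono (closure_ball_subset_closedBall.trans hsub)
  have hsph : ∀ x ∈ sphere ζ (D / 2), |‖x‖ - 1| * ‖Φ x‖ ≤ 3 * M * D := by
    intro x hx
    have hxE : x ∉ E := hsub (sphere_subset_closedBall hx)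
    have hxa : ‖x - α‖ ≤ 3 / 2 * D := by
      have h3 : dist x α ≤ dist x ζ + dist ζ α := dist_triangle _ _ _
      rw [mem_sphere.1 hx, ← hαd, dist_eq_norm] at h3
      linarith
    have h4 : 2 * M * ‖x - α‖ ≤ 3 * M * D := by
      have := mul_le_mul_of_nonneg_left hxa (by linarith : 0 ≤ 2 * M)
      linarith
    rcases lt_trichotomy ‖x‖ 1 with h | h | h
    · have h5 := h0 α hα x h
      rw [le_div_iff₀ (by linarith)] at h5
      rw [hin x h hxE, norm_neg, abs_of_neg (by linarith)]
      linarith
    · rw [h, sub_self, abs_zero, zero_mul]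
      positivity
    · have h5 := h1 α hα x h
      rw [le_div_iff₀ (by linarith)] at h5
      rw [hout x h hxE, abs_of_pos (by linarith)]
      linarith
  have h6 := hR ζ (D / 2) (3 * M * D) Φ hζ (by linarith) (by linarith) hdc hsph z
    (by
      have : D / 2 / 4 = D / 8 := by ring
      rw [this]; exact hz)
  refine h6.trans (le_of_eq ?_)
  field_simp
  ring

end Run7.h480.TB
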